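import Mathlib

/-!
# Subsets of a finite set with many elements in a given small set
-/

set_option autoImplicit false

namespace Pool.Agent.R535.PG

open Finset

/-- a subset of given size on which the average of `g` is at least the average over `B` -/
theorem exists_sub {ι : Type*} [DecidableEq ι] (g : ι → ℝ) (m : ℕ) :
    ∀ (d : ℕ) (B : Finset ι), B.card = m + d →
      ∃ B₀ ⊆ B, B₀.card = m ∧ (m : ℝ) * ∑ b ∈ B, g b ≤ (B.card : ℝ) * ∑ b ∈ B₀, g b := by
  rcases Nat.eq_zero_or_pos m with hm | hm
  · intro d B _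
    exact ⟨∅, empty_subset _, by simp [hm], by simp [hm]⟩
  intro d
  induction d with
  | zero =>
    intro B hB
    exact ⟨B, Subset.refl _, by simpa using hB, by rw [hB]; simp⟩
  | succ d ih =>
    intro B hB
    have hne : B.Nonempty := by
      rw [← card_pos]; omega
    obtain ⟨b₀, hb₀, hmin⟩ := exists_min_image B g hne
    have hc : (B.erase b₀).card = m + d := by
      rw [card_erase_of_mem hb₀, hB]; omega
    obtain ⟨B₁, h1, h2, h3⟩ := ih (B.erase b₀) hc
    refine ⟨B₁, h1.trans (erase_subset _ _), h2, ?_⟩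
    have hsum : ∑ b ∈ B, g b = g b₀ + ∑ b ∈ B.erase b₀, g b := (add_sum_erase B g hb₀).symm
    have hmin' : (B.card : ℝ) * g b₀ ≤ ∑ b ∈ B, g b := by
      have := card_nsmul_le_sum B g (g b₀) hmin
      rwa [nsmul_eq_mul] at this
    have hcR : (((B.erase b₀).card : ℕ) : ℝ) = (B.card : ℝ) - 1 := by
      rw [hc, hB]; push_cast; ring
    rw [hcR] at h3
    have hB1 : (0 : ℝ) < (B.card : ℝ) - 1 := by
      have : (1 : ℝ) ≤ m := by exact_mod_cast hm
      rw [hB]; push_cast
      have : (0 : ℝ) ≤ d := Nat.cast_nonneg d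
      linarith
    have h4 : ((B.card : ℝ) - 1) * ∑ b ∈ B, g b ≤ (B.card : ℝ) * ∑ b ∈ B.erase b₀, g b := by
      rw [hsum] at hmin' ⊢
      nlinarith
    have hm0 : (0 : ℝ) ≤ m := Nat.cast_nonneg m
    have hB0 : (0 : ℝ) ≤ B.card := Nat.cast_nonneg _
    have h5 : ((B.card : ℝ) - 1) * ((m : ℝ) * ∑ b ∈ B, g b) ≤
        ((B.card : ℝ) - 1) * ((B.card : ℝ) * ∑ b ∈ B₁, g b) := by
      calc ((B.card : ℝ) - 1) * ((m : ℝ) * ∑ b ∈ B, g b)
          = (m : ℝ) * (((B.card : ℝ) - 1) * ∑ b ∈ B, g b) := by ring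
        _ ≤ (m : ℝ) * ((B.card : ℝ) * ∑ b ∈ B.erase b₀, g b) := mul_le_mul_of_nonneg_left h4 hm0
        _ = (B.card : ℝ) * ((m : ℝ) * ∑ b ∈ B.erase b₀, g b) := by ring
        _ ≤ (B.card : ℝ) * (((B.card : ℝ) - 1) * ∑ b ∈ B₁, g b) :=
          mul_le_mul_of_nonneg_left h3 hB0
        _ = _ := by ring
    exact le_of_mul_le_mul_left h5 hB1

theorem desc_le (v s : ℕ) (h : v ≤ s) (K : ℕ) :
    v.descFactorial K * s ^ K ≤ s.descFactorial K * v ^ K := by
  induction K with
  | zero => simp
  | succ K ih =>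
    rw [Nat.descFactorial_succ, Nat.descFactorial_succ, pow_succ, pow_succ]
    have h1 : (v - K) * s ≤ (s - K) * v := by
      rw [Nat.sub_mul, Nat.sub_mul, mul_comm s v]
      have := Nat.mul_le_mul_left K h
      omega
    calc (v - K) * v.descFactorial K * (s ^ K * s)
        = ((v - K) * s) * (v.descFactorial K * s ^ K) := by ring
      _ ≤ ((s - K) * v) * (s.descFactorial K * v ^ K) := Nat.mul_le_mul h1 ih
      _ = _ := by ring

theorem choose_le (v s : ℕ) (h : v ≤ s) (K : ℕ) :
    v.choose K * s ^ K ≤ s.choose K * v ^ K := by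
  have h1 := desc_le v s h K
  rw [Nat.descFactorial_eq_factorial_mul_choose, Nat.descFactorial_eq_factorial_mul_choose] at h1
  have h2 : K.factorial * (v.choose K * s ^ K) ≤ K.factorial * (s.choose K * v ^ K) := by
    calc _ = K.factorial * v.choose K * s ^ K := by ring
      _ ≤ K.factorial * s.choose K * v ^ K := h1
      _ = _ := by ring
  exact Nat.le_of_mul_le_mul_left h2 (Nat.factorial_pos K)

/-- the number of `n`-subsets of `S` with at least `K` elements in `V` -/
theorem card_many {α : Type*} [DecidableEq α] (S V : Finset α) (n K : ℕ) :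
    ((S.powersetCard n).filter (fun A => K ≤ (A ∩ V).card)).card ≤
      (S ∩ V).card.choose K * (S.card - K).choose (n - K) := by
  classical
  have hsub : (S.powersetCard n).filter (fun A => K ≤ (A ∩ V).card) ⊆
      ((S ∩ V).powersetCard K).biUnion
        (fun T => (S.powersetCard n).filter (fun A => T ⊆ A)) := by
    intro A hA
    obtain ⟨h1, h2⟩ := mem_filter.1 hA
    obtain ⟨T, hT1, hT2⟩ := exists_subset_card_eq h2
    refine mem_biUnion.2 ⟨T, ?_, ?_⟩
    · refine mem_powersetCard.2 ⟨hT1.trans ?_, hT2⟩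
      exact inter_subset_inter_right (mem_powersetCard.1 h1).1
    · exact mem_filter.2 ⟨h1, hT1.trans inter_subset_left⟩
  refine (card_le_card hsub).trans (card_biUnion_le.trans ?_)
  have hT : ∀ T ∈ (S ∩ V).powersetCard K,
      ((S.powersetCard n).filter (fun A => T ⊆ A)).card ≤ (S.card - K).choose (n - K) := by
    intro T hT
    obtain ⟨h1, h2⟩ := mem_powersetCard.1 hT
    have h3 : T ⊆ S := h1.trans inter_subset_left
    have h4 : ((S \ T).powersetCard (n - K)).card = (S.card - K).choose (n - K) := by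
      rw [card_powersetCard, card_sdiff_of_subset h3, h2]
    rw [← h4]
    refine card_le_card_of_injOn (fun A => A \ T) ?_ ?_
    · intro A hA
      obtain ⟨h5, h6⟩ := mem_filter.1 hA
      obtain ⟨h7, h8⟩ := mem_powersetCard.1 h5
      refine mem_powersetCard.2 ⟨sdiff_subset_sdiff h7 (Subset.refl _), ?_⟩
      rw [card_sdiff_of_subset h6, h8, h2]
    · intro A hA A' hA' he
      have h5 := (mem_filter.1 hA).2
      have h6 := (mem_filter.1 hA').2
      have he' : A \ T = A' \ T := he
      rw [← sdiff_union_of_subset h5, ← sdiff_union_of_subset h6, he']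
  refine (sum_le_card_nsmul _ _ _ hT).trans ?_
  rw [card_powersetCard, smul_eq_mul]

/-- the proportion of the `n`-subsets of `S` with at least `K` elements in `V` -/
theorem card_many_real {α : Type*} [DecidableEq α] (S V : Finset α) (n K : ℕ) (hK : 1 ≤ K)
    (hn : n ≤ S.card) (W : ℝ) (hW : (V.card : ℝ) ≤ W) :
    (((S.powersetCard n).filter (fun A => K ≤ (A ∩ V).card)).card : ℝ) ≤
      (Real.exp 1 * n * W / (S.card * K)) ^ K * (S.card.choose n : ℝ) := by
  have hW0 : 0 ≤ W := (Nat.cast_nonneg _).trans hW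
  rcases lt_or_ge n K with h | h
  · have h0 : (S.powersetCard n).filter (fun A => K ≤ (A ∩ V).card) = ∅ := by
      refine filter_false_of_mem fun A hA => ?_
      have h1 := (mem_powersetCard.1 hA).2
      have h2 := card_le_card (inter_subset_left : A ∩ V ⊆ A)
      omega
    rw [h0, card_empty, Nat.cast_zero]
    positivity
  · have h1 := card_many S V n K
    set s := S.card with hs
    set v := (S ∩ V).card with hv
    have hvs : v ≤ s := card_le_card inter_subset_left
    have hKs : K ≤ s := h.trans hn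
    have hs0 : (0 : ℝ) < s := by exact_mod_cast (by omega : 0 < s)
    have hK0 : (0 : ℝ) < K := by exact_mod_cast hK
    have hCs : (0 : ℝ) < (s.choose K : ℝ) := by exact_mod_cast Nat.choose_pos hKs
    have hvW : (v : ℝ) ≤ W := by
      have : v ≤ V.card := card_le_card inter_subset_right
      exact (by exact_mod_cast this : (v : ℝ) ≤ V.card).trans hW
    have h2 : (v.choose K : ℝ) * (s : ℝ) ^ K ≤ (s.choose K : ℝ) * (v : ℝ) ^ K := by
      exact_mod_cast choose_le v s hvs K
    have h3 : (s.choose n : ℝ) * (n.choose K : ℝ) =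
        (s.choose K : ℝ) * ((s - K).choose (n - K) : ℝ) := by
      exact_mod_cast (Nat.choose_mul h : s.choose n * n.choose K = s.choose K * (s - K).choose (n - K))
    have h4 : (n.choose K : ℝ) ≤ (Real.exp 1 * n / K) ^ K := by
      have h5 : (n.choose K : ℝ) ≤ (n : ℝ) ^ K / K.factorial := Nat.choose_le_pow_div K n
      have h6 : (K : ℝ) ^ K / K.factorial ≤ Real.exp K :=
        Real.pow_div_factorial_le_exp K (Nat.cast_nonneg K) K
      have hf : (0 : ℝ) < K.factorial := by exact_mod_cast Nat.factorial_pos K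
      have h7 : (Real.exp 1 * n / K) ^ K = Real.exp K * (n : ℝ) ^ K / (K : ℝ) ^ K := by
        rw [div_pow, mul_pow, ← Real.exp_nat_mul, mul_one]
      rw [h7]
      refine h5.trans ?_
      rw [div_le_div_iff₀ hf (by positivity)]
      rw [div_le_iff₀ hf] at h6
      calc (n : ℝ) ^ K * (K : ℝ) ^ K ≤ (n : ℝ) ^ K * (Real.exp K * K.factorial) :=
            mul_le_mul_of_nonneg_left h6 (by positivity)
        _ = _ := by ring
    have h5 : (((S.powersetCard n).filter (fun A => K ≤ (A ∩ V).card)).card : ℝ) ≤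
        (v.choose K : ℝ) * ((s - K).choose (n - K) : ℝ) := by exact_mod_cast h1
    refine h5.trans ?_
    have h6 : (v.choose K : ℝ) ≤ (s.choose K : ℝ) * (W / s) ^ K := by
      rw [div_pow, mul_div_assoc', le_div_iff₀ (by positivity)]
      refine h2.trans ?_
      exact mul_le_mul_of_nonneg_left (pow_le_pow_left₀ (Nat.cast_nonneg v) hvW K) hCs.le
    calc (v.choose K : ℝ) * ((s - K).choose (n - K) : ℝ)
        ≤ ((s.choose K : ℝ) * (W / s) ^ K) * ((s - K).choose (n - K) : ℝ) :=
          mul_le_mul_of_nonneg_right h6 (Nat.cast_nonneg _)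
      _ = (W / s) ^ K * ((s.choose n : ℝ) * (n.choose K : ℝ)) := by rw [h3]; ring
      _ ≤ (W / s) ^ K * ((s.choose n : ℝ) * (Real.exp 1 * n / K) ^ K) :=
          mul_le_mul_of_nonneg_left (mul_le_mul_of_nonneg_left h4 (Nat.cast_nonneg _))
            (by positivity)
      _ = ((W / s) * (Real.exp 1 * n / K)) ^ K * (s.choose n : ℝ) := by rw [mul_pow]; ring
      _ = (Real.exp 1 * n * W / (s * K)) ^ K * (s.choose n : ℝ) := by
          congr 2
          field_simp

end Pool.Agent.R535.PG
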