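import Pool.Agent.R535.PG.Count
import Pool.Agent.H435R3.Paley.All
import Pool.Agent.H435R3.Paley.Avg

/-!
# The Paley graph bound for all subsets of almost all subsets of a set
-/

set_option autoImplicit false

namespace Pool.Agent.R535.PG

open Finset Pool.Agent.H435R3.Paley Pool.Agent.H471R4.BW

/-- the shifts at which the sum over `B` is at least `t` -/
noncomputable def big {p : ℕ} [NeZero p] (χ : DirichletCharacter ℂ p) (B : Finset (ZMod p))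
    (t : ℝ) : Finset (ZMod p) :=
  univ.filter (fun x => t ≤ ‖∑ b ∈ B, χ (x + b)‖)

theorem big_card {p : ℕ} [Fact p.Prime] (χ : DirichletCharacter ℂ p) (hχ : χ ≠ 1) (r : ℕ)
    (hr : 1 ≤ r) (B : Finset (ZMod p)) (t : ℝ) (ht : 0 ≤ t) :
    ((big χ B t).card : ℝ) * t ^ (2 * r) ≤
      (r : ℝ) ^ (2 * r) * (B.card : ℝ) ^ r * p + (2 * r) * (B.card : ℝ) ^ (2 * r) * Real.sqrt p := by
  have hm := momF χ r (2 * r) hr (by positivity) B (by
    have := good_all p χ hχ r hr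
    simpa using this)
  refine le_trans ?_ hm
  calc ((big χ B t).card : ℝ) * t ^ (2 * r) = ∑ _x ∈ big χ B t, t ^ (2 * r) := by
        rw [sum_const, nsmul_eq_mul]
    _ ≤ ∑ x ∈ big χ B t, ‖∑ b ∈ B, χ (x + b)‖ ^ (2 * r) := by
        refine sum_le_sum fun x hx => ?_
        exact pow_le_pow_left₀ ht (mem_filter.1 hx).2 _
    _ ≤ _ := sum_le_sum_of_subset_of_nonneg (subset_univ _) fun _ _ _ => by positivity

theorem exists_dir (z : ℂ) : ∃ u : ℂ, ‖u‖ ≤ 1 ∧ u * z = (‖z‖ : ℂ) := by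
  rcases eq_or_ne z 0 with h | h
  · exact ⟨0, by simp, by simp [h]⟩
  · have hz : (‖z‖ : ℝ) ≠ 0 := norm_ne_zero_iff.2 h
    refine ⟨(starRingEnd ℂ) z / (‖z‖ : ℂ), ?_, ?_⟩
    · rw [norm_div, RCLike.norm_conj, Complex.norm_real, norm_norm, div_self hz]
    · have h1 : (‖z‖ : ℂ) ≠ 0 := by exact_mod_cast hz
      rw [div_mul_eq_mul_div, div_eq_iff h1, mul_comm, Complex.mul_conj,
        Complex.normSq_eq_norm_sq]
      push_cast
      ring

/-- many large values for a small subset of `B` -/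
theorem reduce {p : ℕ} [Fact p.Prime] (χ : DirichletCharacter ℂ p) (A B : Finset (ZMod p))
    (m : ℕ) (hm : 1 ≤ m) (hmB : m ≤ B.card) (τ : ℝ) (hτ : 0 ≤ τ)
    (h : τ * ((A.card : ℝ) * B.card) < ∑ a ∈ A, ‖∑ b ∈ B, χ (a + b)‖) :
    ∃ B₀ : Finset (ZMod p), B₀.card = m ∧
      τ / 2 * A.card ≤ ((A ∩ big χ B₀ (τ / 2 * m)).card : ℝ) := by
  classical
  choose u hu1 hu2 using fun a : ZMod p => exists_dir (∑ b ∈ B, χ (a + b))
  set g : ZMod p → ℝ := fun b => (∑ a ∈ A, u a * χ (a + b)).re with hg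
  have hsum : ∀ C : Finset (ZMod p), ∑ b ∈ C, g b = (∑ a ∈ A, u a * ∑ b ∈ C, χ (a + b)).re := by
    intro C
    rw [hg]
    simp only
    rw [← Complex.re_sum, sum_comm]
    congr 1
    exact sum_congr rfl fun a _ => (mul_sum _ _ _).symm
  obtain ⟨B₀, h0, h1, h2⟩ := exists_sub g m (B.card - m) B (by omega)
  refine ⟨B₀, h1, ?_⟩
  have hB : ∑ b ∈ B, g b = ∑ a ∈ A, ‖∑ b ∈ B, χ (a + b)‖ := by
    rw [hsum, Complex.re_sum]
    refine sum_congr rfl fun a _ => ?_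
    rw [hu2, Complex.ofReal_re]
  have hB0 : ∑ b ∈ B₀, g b ≤ ∑ a ∈ A, ‖∑ b ∈ B₀, χ (a + b)‖ := by
    rw [hsum]
    refine (Complex.re_le_norm _).trans ((norm_sum_le _ _).trans (sum_le_sum fun a _ => ?_))
    rw [norm_mul]
    exact mul_le_of_le_one_left (norm_nonneg _) (hu1 a)
  have hBpos : (0 : ℝ) < B.card := by exact_mod_cast (by omega : 0 < B.card)
  have hmpos : (0 : ℝ) < m := by exact_mod_cast hm
  have h3 : τ * (A.card : ℝ) * m ≤ ∑ a ∈ A, ‖∑ b ∈ B₀, χ (a + b)‖ := by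
    rw [hB] at h2
    have h4 : (m : ℝ) * (τ * ((A.card : ℝ) * B.card)) ≤
        (B.card : ℝ) * ∑ a ∈ A, ‖∑ b ∈ B₀, χ (a + b)‖ :=
      (mul_le_mul_of_nonneg_left h.le hmpos.le).trans
        (h2.trans (mul_le_mul_of_nonneg_left hB0 hBpos.le))
    have h5 : (B.card : ℝ) * (τ * (A.card : ℝ) * m) ≤
        (B.card : ℝ) * ∑ a ∈ A, ‖∑ b ∈ B₀, χ (a + b)‖ := by
      refine le_trans (le_of_eq ?_) h4
      ring
    exact le_of_mul_le_mul_left h5 hBpos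
  have hle : ∀ a, ‖∑ b ∈ B₀, χ (a + b)‖ ≤ (m : ℝ) := by
    intro a
    refine (norm_sum_le _ _).trans ?_
    calc ∑ b ∈ B₀, ‖χ (a + b)‖ ≤ ∑ _b ∈ B₀, (1 : ℝ) := sum_le_sum fun b _ => χ.norm_le_one _
      _ = m := by rw [sum_const, h1, nsmul_eq_mul, mul_one]
  have h4 : ∑ a ∈ A, ‖∑ b ∈ B₀, χ (a + b)‖ ≤
      (m : ℝ) * ((A ∩ big χ B₀ (τ / 2 * m)).card : ℝ) + τ / 2 * m * A.card := by
    calc ∑ a ∈ A, ‖∑ b ∈ B₀, χ (a + b)‖
          ≤ ∑ a ∈ A, ((if a ∈ big χ B₀ (τ / 2 * m) then (m : ℝ) else 0) + τ / 2 * m) := by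
            refine sum_le_sum fun a _ => ?_
            split_ifs with hab
            · have : 0 ≤ τ / 2 * m := by positivity
              linarith [hle a]
            · have : ¬ (τ / 2 * m ≤ ‖∑ b ∈ B₀, χ (a + b)‖) := fun h5 =>
                hab (mem_filter.2 ⟨mem_univ _, h5⟩)
              push Not at this
              linarith
        _ = _ := by
            rw [sum_add_distrib, ← sum_filter, sum_const, sum_const, nsmul_eq_mul, nsmul_eq_mul,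
              filter_mem_eq_inter]
            ring
  have h5 : (m : ℝ) * (τ / 2 * A.card) ≤
      (m : ℝ) * ((A ∩ big χ B₀ (τ / 2 * m)).card : ℝ) := by
    have : τ * (A.card : ℝ) * m = 2 * ((m : ℝ) * (τ / 2 * A.card)) := by ring
    have h6 : τ / 2 * m * A.card = (m : ℝ) * (τ / 2 * A.card) := by ring
    linarith
  exact le_of_mul_le_mul_left h5 hmpos

/-- the bound for all subsets `A'` of `A` which are not too small -/
def PG (p : ℕ) [Fact p.Prime] (ε δ : ℝ) (S A : Finset (ZMod p)) : Prop :=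
  ∀ A' ⊆ A, (p : ℝ) ^ ε ≤ A'.card →
    (A.card : ℝ) * (p : ℝ) ^ (1 / 2 + ε) ≤ (A'.card : ℝ) * S.card →
    ∀ B : Finset (ZMod p), (p : ℝ) ^ ε ≤ B.card → ∀ χ : DirichletCharacter ℂ p, χ ≠ 1 →
      ∑ a ∈ A', ‖∑ b ∈ B, χ (a + b)‖ ≤ (p : ℝ) ^ (-δ) * ((A'.card : ℝ) * B.card)

theorem card_char (p : ℕ) [Fact p.Prime] :
    ((univ : Finset (DirichletCharacter ℂ p)).card : ℝ) ≤ p := by
  have h : Nat.card (DirichletCharacter ℂ p) = p.totient :=
    DirichletCharacter.card_eq_totient_of_hasEnoughRootsOfUnity ℂ p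
  rw [card_univ, ← Nat.card_eq_fintype_card, h]
  exact_mod_cast Nat.totient_le p

/-- few shifts at which a sum over a set of size `m` is large -/
theorem big_le (p : ℕ) [Fact p.Prime] (ε δ : ℝ) (hε : 0 < ε) (r m : ℕ) (hr : 1 ≤ r)
    (hrε : 1 ≤ ε * r) (hδr : δ * (2 * r) = ε / 8)
    (hC : (4 : ℝ) ^ r * ((r : ℝ) ^ (2 * r) * 2 ^ r + 2 * r) ≤ (p : ℝ) ^ (ε / 16))
    (hm1 : 1 ≤ m) (hm : (p : ℝ) ^ (ε / 2) ≤ 2 * m) (χ : DirichletCharacter ℂ p) (hχ : χ ≠ 1)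
    (B : Finset (ZMod p)) (hB : B.card = m) :
    ((big χ B ((p : ℝ) ^ (-δ) / 2 * m)).card : ℝ) ≤ (p : ℝ) ^ (1 / 2 + ε / 4) := by
  have hpp : p.Prime := Fact.out
  have hp0 : (0 : ℝ) < p := by exact_mod_cast hpp.pos
  have hp1 : (1 : ℝ) ≤ p := by exact_mod_cast hpp.one_le
  have hm0 : (0 : ℝ) < m := by exact_mod_cast hm1
  have hτ : (0 : ℝ) < (p : ℝ) ^ (-δ) := by positivity
  set N : ℝ := ((big χ B ((p : ℝ) ^ (-δ) / 2 * m)).card : ℝ) with hN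
  have h1 := big_card χ hχ r hr B ((p : ℝ) ^ (-δ) / 2 * m) (by positivity)
  rw [← hN, hB] at h1
  have hN0 : 0 ≤ N := Nat.cast_nonneg _
  have hs : Real.sqrt p = (p : ℝ) ^ (1 / 2 : ℝ) := Real.sqrt_eq_rpow _
  have hmr : Real.sqrt p ≤ 2 ^ r * (m : ℝ) ^ r := by
    rw [← mul_pow]
    calc Real.sqrt p = (p : ℝ) ^ (1 / 2 : ℝ) := hs
      _ ≤ (p : ℝ) ^ (ε / 2 * r) := Real.rpow_le_rpow_of_exponent_le hp1 (by linarith)
      _ = ((p : ℝ) ^ (ε / 2)) ^ r := by rw [Real.rpow_mul hp0.le, Real.rpow_natCast]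
      _ ≤ _ := pow_le_pow_left₀ (by positivity) hm r
  have hss : Real.sqrt p * Real.sqrt p = p := Real.mul_self_sqrt hp0.le
  have hs0 : 0 ≤ Real.sqrt p := Real.sqrt_nonneg _
  have h2 : (r : ℝ) ^ (2 * r) * (m : ℝ) ^ r * p ≤
      (r : ℝ) ^ (2 * r) * 2 ^ r * (m : ℝ) ^ (2 * r) * Real.sqrt p := by
    calc (r : ℝ) ^ (2 * r) * (m : ℝ) ^ r * p
        = (r : ℝ) ^ (2 * r) * (m : ℝ) ^ r * (Real.sqrt p * Real.sqrt p) := by rw [hss]
      _ ≤ (r : ℝ) ^ (2 * r) * (m : ℝ) ^ r * ((2 ^ r * (m : ℝ) ^ r) * Real.sqrt p) := by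
          refine mul_le_mul_of_nonneg_left (mul_le_mul_of_nonneg_right hmr hs0) (by positivity)
      _ = _ := by rw [two_mul, pow_add (m : ℝ)]; ring
  have h3 : N * ((p : ℝ) ^ (-δ) / 2 * m) ^ (2 * r) ≤
      ((r : ℝ) ^ (2 * r) * 2 ^ r + 2 * r) * Real.sqrt p * (m : ℝ) ^ (2 * r) := by
    refine h1.trans ?_
    calc _ ≤ (r : ℝ) ^ (2 * r) * 2 ^ r * (m : ℝ) ^ (2 * r) * Real.sqrt p +
          (2 * r) * (m : ℝ) ^ (2 * r) * Real.sqrt p := by linarith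
      _ = _ := by ring
  have h4 : ((p : ℝ) ^ (-δ) / 2 * m) ^ (2 * r) =
      (p : ℝ) ^ (-(ε / 8)) / 4 ^ r * (m : ℝ) ^ (2 * r) := by
    rw [mul_pow, div_pow, ← Real.rpow_natCast ((p : ℝ) ^ (-δ)), ← Real.rpow_mul hp0.le]
    congr 2
    · congr 1
      push_cast
      linarith
    · rw [pow_mul]; norm_num
  rw [h4] at h3
  have hmm : (0 : ℝ) < (m : ℝ) ^ (2 * r) := by positivity
  have h5 : N * ((p : ℝ) ^ (-(ε / 8)) / 4 ^ r) ≤
      ((r : ℝ) ^ (2 * r) * 2 ^ r + 2 * r) * Real.sqrt p := by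
    refine le_of_mul_le_mul_right ?_ hmm
    calc _ = N * ((p : ℝ) ^ (-(ε / 8)) / 4 ^ r * (m : ℝ) ^ (2 * r)) := by ring
      _ ≤ _ := h3
  have h6 : (p : ℝ) ^ (-(ε / 8)) * (p : ℝ) ^ (ε / 8) = 1 := by
    rw [← Real.rpow_add hp0]; simp
  have h7 : N = N * ((p : ℝ) ^ (-(ε / 8)) / 4 ^ r) * (4 ^ r * (p : ℝ) ^ (ε / 8)) := by
    have h8 : (4 : ℝ) ^ r ≠ 0 := by positivity
    calc N = N * ((p : ℝ) ^ (-(ε / 8)) * (p : ℝ) ^ (ε / 8)) := by rw [h6, mul_one]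
      _ = _ := by field_simp
  rw [h7]
  calc N * ((p : ℝ) ^ (-(ε / 8)) / 4 ^ r) * (4 ^ r * (p : ℝ) ^ (ε / 8))
      ≤ ((r : ℝ) ^ (2 * r) * 2 ^ r + 2 * r) * Real.sqrt p * (4 ^ r * (p : ℝ) ^ (ε / 8)) :=
        mul_le_mul_of_nonneg_right h5 (by positivity)
    _ = ((4 : ℝ) ^ r * ((r : ℝ) ^ (2 * r) * 2 ^ r + 2 * r)) *
          (Real.sqrt p * (p : ℝ) ^ (ε / 8)) := by ring
    _ ≤ (p : ℝ) ^ (ε / 16) * (Real.sqrt p * (p : ℝ) ^ (ε / 8)) :=
        mul_le_mul_of_nonneg_right hC (by positivity)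
    _ = (p : ℝ) ^ (ε / 16 + (1 / 2 + ε / 8)) := by
        rw [hs, ← Real.rpow_add hp0, ← Real.rpow_add hp0]
    _ ≤ (p : ℝ) ^ (1 / 2 + ε / 4) := Real.rpow_le_rpow_of_exponent_le hp1 (by linarith)

open Classical in
theorem main (ε : ℝ) (hε : 0 < ε) : ∃ δ : ℝ, 0 < δ ∧ ∃ p₀ : ℕ, ∀ (p : ℕ) [Fact p.Prime],
    p₀ ≤ p → ∀ (S : Finset (ZMod p)) (n : ℕ), n ≤ S.card →
      (((S.powersetCard n).filter (fun A => ¬ PG p ε δ S A)).card : ℝ) ≤
        Real.exp (-(p : ℝ) ^ δ) * ((S.powersetCard n).card : ℝ) := by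
  obtain ⟨r, hr⟩ : ∃ r : ℕ, r = ⌈1 / ε⌉₊ + 1 := ⟨_, rfl⟩
  have hr1 : 1 ≤ r := by omega
  have hrε : 1 ≤ ε * r := by
    have h1 : 1 / ε ≤ (⌈1 / ε⌉₊ : ℝ) := Nat.le_ceil _
    have h2 : (r : ℝ) = (⌈1 / ε⌉₊ : ℝ) + 1 := by rw [hr]; push_cast; ring
    rw [h2]
    have h3 : 1 = ε * (1 / ε) := by field_simp
    nlinarith
  have hr0 : (0 : ℝ) < r := by exact_mod_cast hr1
  have hr1R : (1 : ℝ) ≤ r := by exact_mod_cast hr1
  obtain ⟨δ, hδ⟩ : ∃ δ : ℝ, δ = ε / (16 * r) := ⟨_, rfl⟩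
  have hδ0 : 0 < δ := by rw [hδ]; positivity
  have hδr : δ * (2 * r) = ε / 8 := by rw [hδ]; field_simp; ring
  have hδε : δ ≤ ε / 16 := by
    rw [hδ]
    exact div_le_div_of_nonneg_left hε.le (by norm_num) (by linarith)
  set C1 : ℝ := (4 : ℝ) ^ r * ((r : ℝ) ^ (2 * r) * 2 ^ r + 2 * r) with hC1
  have hC10 : 0 ≤ C1 := by rw [hC1]; positivity
  obtain ⟨p₀, hp₀2, hp₀⟩ := exists_large (C1 + 6 + 12 / ε) (ε / 16) (by positivity)
  refine ⟨δ, hδ0, max p₀ 3, fun p _ hp S n hn => ?_⟩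
  have hpp : p.Prime := Fact.out
  have hp3 : 3 ≤ p := (le_max_right _ _).trans hp
  have hp0 : (0 : ℝ) < p := by exact_mod_cast hpp.pos
  have hp1 : (1 : ℝ) ≤ p := by exact_mod_cast hpp.one_le
  have hbig := hp₀ p ((le_max_left _ _).trans hp)
  have h12 : 0 < 12 / ε := by positivity
  have hCp : C1 ≤ (p : ℝ) ^ (ε / 16) := by linarith
  have h6p : 6 ≤ (p : ℝ) ^ (ε / 16) := by linarith
  have h12p : 12 / ε ≤ (p : ℝ) ^ (ε / 16) := by linarith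
  have hmono : ∀ x y : ℝ, x ≤ y → (p : ℝ) ^ x ≤ (p : ℝ) ^ y := fun x y h =>
    Real.rpow_le_rpow_of_exponent_le hp1 h
  have hlog : 1 ≤ Real.log p := by
    rw [Real.le_log_iff_exp_le hp0]
    have h3 : (3 : ℝ) ≤ p := by exact_mod_cast hp3
    linarith [Real.exp_one_lt_d9]
  set m : ℕ := ⌊(p : ℝ) ^ (ε / 2)⌋₊ with hm
  have hx1 : (1 : ℝ) ≤ (p : ℝ) ^ (ε / 2) := Real.one_le_rpow hp1 (by positivity)
  have hm1 : 1 ≤ m := by
    rw [hm]; exact Nat.le_floor (by simpa using hx1)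
  have hmle : (m : ℝ) ≤ (p : ℝ) ^ (ε / 2) := Nat.floor_le (by positivity)
  have hm2 : (p : ℝ) ^ (ε / 2) ≤ 2 * m := by
    have h1 : (p : ℝ) ^ (ε / 2) < m + 1 := Nat.lt_floor_add_one _
    have h2 : (1 : ℝ) ≤ m := by exact_mod_cast hm1
    linarith
  set τ : ℝ := (p : ℝ) ^ (-δ) with hτ
  have hτ0 : 0 < τ := by rw [hτ]; positivity
  set s : ℝ := (S.card : ℝ) with hs
  set M : ℝ := max ((p : ℝ) ^ ε) (n * (p : ℝ) ^ (1 / 2 + ε) / s) with hM
  set K : ℕ := ⌈τ / 2 * M⌉₊ with hK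
  have hKM : τ / 2 * M ≤ K := Nat.le_ceil _
  have hK1 : τ / 2 * (p : ℝ) ^ ε ≤ K :=
    (mul_le_mul_of_nonneg_left (le_max_left _ _) (by positivity)).trans hKM
  have hKpos : 1 ≤ K := by
    have : (0 : ℝ) < K := lt_of_lt_of_le (by positivity) hK1
    exact_mod_cast this
  set W : ℝ := (p : ℝ) ^ (1 / 2 + ε / 4) with hW
  -- the bad sets
  have hsub : (S.powersetCard n).filter (fun A => ¬ PG p ε δ S A) ⊆
      ((univ : Finset (ZMod p)).powersetCard m).biUnion fun B₀ =>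
        ((univ : Finset (DirichletCharacter ℂ p)).filter (fun χ => χ ≠ 1)).biUnion fun χ =>
          (S.powersetCard n).filter (fun A => K ≤ (A ∩ big χ B₀ (τ / 2 * m)).card) := by
    intro A hA
    obtain ⟨hA1, hA2⟩ := mem_filter.1 hA
    have hAn : A.card = n := (mem_powersetCard.1 hA1).2
    unfold PG at hA2
    push Not at hA2
    obtain ⟨A', hA', h1, h2, B, h3, χ, h4, h5⟩ := hA2
    have hmB : m ≤ B.card := by
      have : (m : ℝ) ≤ B.card := hmle.trans ((hmono _ _ (by linarith)).trans h3)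
      exact_mod_cast this
    obtain ⟨B₀, h6, h7⟩ := reduce χ A' B m hm1 hmB τ hτ0.le h5
    refine mem_biUnion.2 ⟨B₀, mem_powersetCard.2 ⟨subset_univ _, h6⟩,
      mem_biUnion.2 ⟨χ, mem_filter.2 ⟨mem_univ _, h4⟩, mem_filter.2 ⟨hA1, ?_⟩⟩⟩
    have hMA : M ≤ A'.card := by
      refine max_le h1 ?_
      rw [hAn] at h2
      rcases eq_or_lt_of_le (show 0 ≤ s from Nat.cast_nonneg _) with h8 | h8
      · rw [← h8, div_zero]; positivity
      · rw [div_le_iff₀ h8]; exact h2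
    have h9 : τ / 2 * M ≤ ((A ∩ big χ B₀ (τ / 2 * m)).card : ℝ) := by
      calc τ / 2 * M ≤ τ / 2 * A'.card := mul_le_mul_of_nonneg_left hMA (by positivity)
        _ ≤ ((A' ∩ big χ B₀ (τ / 2 * m)).card : ℝ) := h7
        _ ≤ _ := by exact_mod_cast card_le_card (inter_subset_inter_right hA')
    rw [hK]
    exact Nat.ceil_le.2 h9
  -- one pair
  have hone : ∀ B₀ ∈ (univ : Finset (ZMod p)).powersetCard m,
      ∀ χ ∈ (univ : Finset (DirichletCharacter ℂ p)).filter (fun χ => χ ≠ 1),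
      (((S.powersetCard n).filter (fun A => K ≤ (A ∩ big χ B₀ (τ / 2 * m)).card)).card : ℝ) ≤
        ((p : ℝ) ^ (-(ε / 2))) ^ K * (S.card.choose n : ℝ) := by
    intro B₀ hB₀ χ hχ
    have hcard := big_le p ε δ hε r m hr1 hrε hδr hCp hm1 hm2 χ (mem_filter.1 hχ).2 B₀
      (mem_powersetCard.1 hB₀).2
    refine (card_many_real S _ n K hKpos hn W hcard).trans ?_
    refine mul_le_mul_of_nonneg_right (pow_le_pow_left₀ (by positivity) ?_ K) (Nat.cast_nonneg _)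
    have hK0 : (0 : ℝ) < K := by exact_mod_cast hKpos
    rcases eq_or_lt_of_le (show 0 ≤ s from Nat.cast_nonneg _) with h8 | h8
    · rw [← hs, ← h8]; simp only [zero_mul, div_zero]; positivity
    · rw [← hs, div_le_iff₀ (by positivity)]
      have h9 : τ / 2 * (n * (p : ℝ) ^ (1 / 2 + ε) / s) ≤ K :=
        (mul_le_mul_of_nonneg_left (le_max_right _ _) (by positivity)).trans hKM
      have h10 : τ / 2 * (n * (p : ℝ) ^ (1 / 2 + ε)) ≤ s * K := by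
        calc τ / 2 * (n * (p : ℝ) ^ (1 / 2 + ε))
            = s * (τ / 2 * (n * (p : ℝ) ^ (1 / 2 + ε) / s)) := by field_simp
          _ ≤ s * K := mul_le_mul_of_nonneg_left h9 h8.le
      have h11 : Real.exp 1 * W ≤ (p : ℝ) ^ (-(ε / 2)) * (τ / 2 * (p : ℝ) ^ (1 / 2 + ε)) := by
        have e1 : (p : ℝ) ^ (-(ε / 2)) * (τ / 2 * (p : ℝ) ^ (1 / 2 + ε)) =
            (p : ℝ) ^ (ε / 4 - δ) * W / 2 := by
          rw [hτ, hW]
          have e2 : (p : ℝ) ^ (-(ε / 2)) * ((p : ℝ) ^ (-δ) * (p : ℝ) ^ (1 / 2 + ε)) =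
              (p : ℝ) ^ (ε / 4 - δ) * (p : ℝ) ^ (1 / 2 + ε / 4) := by
            rw [← Real.rpow_add hp0, ← Real.rpow_add hp0, ← Real.rpow_add hp0]
            congr 1
            ring
          linear_combination (1 / 2 : ℝ) * e2
        rw [e1]
        have e3 : 6 ≤ (p : ℝ) ^ (ε / 4 - δ) := h6p.trans (hmono _ _ (by linarith))
        have hW0 : 0 < W := by rw [hW]; positivity
        have e4 : Real.exp 1 ≤ 3 := by linarith [Real.exp_one_lt_d9]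
        nlinarith
      calc Real.exp 1 * n * W = n * (Real.exp 1 * W) := by ring
        _ ≤ n * ((p : ℝ) ^ (-(ε / 2)) * (τ / 2 * (p : ℝ) ^ (1 / 2 + ε))) :=
            mul_le_mul_of_nonneg_left h11 (Nat.cast_nonneg _)
        _ = (p : ℝ) ^ (-(ε / 2)) * (τ / 2 * (n * (p : ℝ) ^ (1 / 2 + ε))) := by ring
        _ ≤ (p : ℝ) ^ (-(ε / 2)) * (s * K) := mul_le_mul_of_nonneg_left h10 (by positivity)
  -- the union bound
  set q : ℝ := ((p : ℝ) ^ (-(ε / 2))) ^ K * (S.card.choose n : ℝ) with hq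
  have hq0 : 0 ≤ q := by rw [hq]; positivity
  have hunion : (((S.powersetCard n).filter (fun A => ¬ PG p ε δ S A)).card : ℝ) ≤
      (p : ℝ) ^ m * (p * q) := by
    have h1 : (((S.powersetCard n).filter (fun A => ¬ PG p ε δ S A)).card : ℝ) ≤
        ∑ B₀ ∈ (univ : Finset (ZMod p)).powersetCard m,
          ∑ χ ∈ (univ : Finset (DirichletCharacter ℂ p)).filter (fun χ => χ ≠ 1),
          (((S.powersetCard n).filter
            (fun A => K ≤ (A ∩ big χ B₀ (τ / 2 * m)).card)).card : ℝ) := by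
      have h2 := (card_le_card hsub).trans (card_biUnion_le.trans
        (sum_le_sum fun B₀ _ => card_biUnion_le))
      exact_mod_cast h2
    refine h1.trans ((sum_le_sum fun B₀ hB₀ => sum_le_sum fun χ hχ => hone B₀ hB₀ χ hχ).trans ?_)
    rw [sum_const, sum_const, nsmul_eq_mul, nsmul_eq_mul]
    refine mul_le_mul ?_ ?_ (by positivity) (by positivity)
    · rw [card_powersetCard, card_univ, ZMod.card]
      exact_mod_cast Nat.choose_le_pow p m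
    · refine mul_le_mul_of_nonneg_right ?_ hq0
      refine le_trans ?_ (card_char p)
      exact_mod_cast card_filter_le _ _
  refine hunion.trans ?_
  rw [card_powersetCard, hq]
  have hC0 : (0 : ℝ) ≤ (S.card.choose n : ℝ) := Nat.cast_nonneg _
  have hfin : (p : ℝ) ^ m * (p * ((p : ℝ) ^ (-(ε / 2))) ^ K) ≤ Real.exp (-(p : ℝ) ^ δ) := by
    have e1 : (p : ℝ) ^ m * (p * ((p : ℝ) ^ (-(ε / 2))) ^ K) =
        Real.exp (-(Real.log p * (ε / 2 * K - m - 1))) := by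
      have e2 : (p : ℝ) ^ m = (p : ℝ) ^ (m : ℝ) := (Real.rpow_natCast _ _).symm
      have e3 : (p : ℝ) = (p : ℝ) ^ (1 : ℝ) := (Real.rpow_one _).symm
      have e4 : ((p : ℝ) ^ (-(ε / 2))) ^ K = (p : ℝ) ^ (-(ε / 2) * K) := by
        rw [Real.rpow_mul hp0.le, Real.rpow_natCast]
      rw [e2, e4]
      nth_rewrite 2 [e3]
      rw [← Real.rpow_add hp0, ← Real.rpow_add hp0, Real.rpow_def_of_pos hp0]
      congr 1
      ring
    rw [e1]
    refine Real.exp_le_exp.2 (neg_le_neg ?_)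
    have h1 : ε / 4 * (p : ℝ) ^ (ε - δ) ≤ ε / 2 * K := by
      have h2 : τ * (p : ℝ) ^ ε = (p : ℝ) ^ (ε - δ) := by
        rw [hτ, ← Real.rpow_add hp0]; congr 1; ring
      have h3 : (p : ℝ) ^ (ε - δ) / 2 ≤ K := by
        rw [← h2]; linarith
      nlinarith
    have h2 : 3 * (p : ℝ) ^ (ε / 2) ≤ ε / 4 * (p : ℝ) ^ (ε - δ) := by
      have h3 : (p : ℝ) ^ (ε - δ) = (p : ℝ) ^ (ε / 2) * (p : ℝ) ^ (ε / 2 - δ) := by
        rw [← Real.rpow_add hp0]; congr 1; ring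
      have h4 : 12 / ε ≤ (p : ℝ) ^ (ε / 2 - δ) := h12p.trans (hmono _ _ (by linarith))
      rw [div_le_iff₀ hε] at h4
      rw [h3]
      nlinarith
    have h5 : (p : ℝ) ^ δ ≤ (p : ℝ) ^ (ε / 2) := hmono _ _ (by linarith)
    have h6 : (p : ℝ) ^ δ ≤ ε / 2 * K - m - 1 := by linarith
    have h7 : (0 : ℝ) ≤ (p : ℝ) ^ δ := by positivity
    calc (p : ℝ) ^ δ = 1 * (p : ℝ) ^ δ := (one_mul _).symm
      _ ≤ Real.log p * (ε / 2 * K - m - 1) :=
        mul_le_mul hlog h6 h7 (by linarith)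
  calc (p : ℝ) ^ m * (p * (((p : ℝ) ^ (-(ε / 2))) ^ K * (S.card.choose n : ℝ)))
      = ((p : ℝ) ^ m * (p * ((p : ℝ) ^ (-(ε / 2))) ^ K)) * (S.card.choose n : ℝ) := by ring
    _ ≤ Real.exp (-(p : ℝ) ^ δ) * (S.card.choose n : ℝ) := mul_le_mul_of_nonneg_right hfin hC0

end Pool.Agent.R535.PG
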